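import Pool.Agent.K1H14.SD.Stm4
import Pool.Agent.K1H25.SD.Vec
import Pool.Agent.K1H25.SD.Swap
import Pool.Agent.K1H42.SD.Span

set_option autoImplicit false

/-! Project SD: `S_VV`. -/

namespace Pool.Agent.K1H78.SD

open Pool.Agent.K1H14.SD Pool.Agent.K1H25.SD

open scoped symmDiff

universe u

variable {A : Type u} [Ring A] [Algebra ℂ A] {d : ℕ} {M : Finset (Fin d) → A} {st : A →ₗ[ℂ] A}

theorem lev_zero (hE : EvenCl M st) : Lev M 0 = Submodule.span ℂ {(1 : A)} := by
  unfold Lev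
  congr 1
  ext x
  simp only [Set.mem_ofPred_eq, Set.mem_singleton_iff]
  constructor
  · rintro ⟨K, hK, rfl⟩
    rw [Finset.card_eq_zero.1 hK, hE.one]
  · rintro rfl
    exact ⟨∅, rfl, hE.one.symm⟩

theorem lev_st (hE : EvenCl M st) (h3 : d % 4 = 3) (x : A) (hx : x ∈ Lev M (d - 1)) :
    st x = -x := by
  unfold Lev at hx
  induction hx using Submodule.span_induction with
  | zero => rw [map_zero, neg_zero]
  | add a b _ _ ha hb => rw [map_add, ha, hb, neg_add]
  | smul c a _ ha => rw [map_smul, ha, smul_neg]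
  | mem a ha =>
    obtain ⟨K, hK, rfl⟩ := ha
    have hKe : Even K.card := by rw [hK, Nat.even_iff]; omega
    rw [hE.st_M K hKe, hK]
    have : Odd ((d - 1) / 2) := by rw [Nat.odd_iff]; omega
    rw [this.neg_one_pow, neg_one_smul]

theorem st_one' (hE : EvenCl M st) : st (1 : A) = 1 := by
  have := hE.st_M ∅ (by simp)
  rw [hE.one] at this
  simpa using this

/-- the decomposition of the elements of `V` -/
theorem memV (hE : EvenCl M st) {e : A} (he : e ∈ Lev M 0 ⊔ Lev M (d - 1)) :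
    ∃ a : ℂ, ∃ n ∈ Lev M (d - 1), e = a • (1 : A) + n := by
  rw [lev_zero hE] at he
  obtain ⟨y, hy, n, hn, rfl⟩ := Submodule.mem_sup.1 he
  obtain ⟨a, rfl⟩ := Submodule.mem_span_singleton.1 hy
  exact ⟨a, n, hn, rfl⟩

theorem t_VV : S_VV.{u} := by
  intro A _ _ d M st s t hE h3 hd5 hs1 hs2 hP hs3 e he
  obtain ⟨ht1, ht2, hP⟩ := hP
  have hd := hE.odd
  have hde : Even (d - 1) := by rw [Nat.even_iff]; omega
  have hl0 := lev_zero hE
  set V : Submodule ℂ A := Lev M 0 ⊔ Lev M (d - 1) with hV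
  set φ : A →ₗ[ℂ] A := LinearMap.mulLeft ℂ s ∘ₗ LinearMap.mulRight ℂ (st t) with hφ
  have hφa : ∀ x, φ x = s * x * st t := fun x => by
    rw [hφ, LinearMap.comp_apply, LinearMap.mulLeft_apply, LinearMap.mulRight_apply, mul_assoc]
  set N : Submodule ℂ A := V.map φ with hN
  have hNmem : ∀ y, y ∈ N ↔ ∃ p ∈ V, s * p * st t = y := by
    intro y
    rw [hN, Submodule.mem_map]
    simp only [hφa]
  -- (1)
  have hNst : ∀ K : Finset (Fin d), K.card = 2 → ∀ x ∈ N, M K * x - x * M K ∈ N := by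
    intro K hK x hx
    obtain ⟨p, hp, rfl⟩ := (hNmem x).1 hx
    have hMK : M K ∈ Lev M 2 := Submodule.subset_span ⟨K, hK, rfl⟩
    obtain ⟨z0, hz0, n0, hn0, hzn⟩ := Submodule.mem_sup.1
      (hs3 (M K) (Submodule.mem_sup_left hMK))
    have h4 : s * (z0 + n0) = M K * s := by
      rw [hzn, ← mul_assoc, ← mul_assoc, hs2, one_mul]
    have h5 : s * (z0 + n0) * st s = M K + 0 := by
      rw [h4, mul_assoc, hs2, mul_one, add_zero]
    have h6 := hP z0 hz0 n0 hn0 (M K) hMK 0 (Submodule.zero_mem _) h5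
    rw [sub_zero] at h6
    have h7 : st t * M K = (z0 - n0) * st t := by
      rw [← h6, ← mul_assoc, ← mul_assoc, ht1, one_mul]
    have h8 : M K * (s * p * st t) - (s * p * st t) * M K =
        s * ((z0 * p - p * z0) + (n0 * p + p * n0)) * st t := by
      have e1 : M K * (s * p * st t) = s * ((z0 + n0) * p) * st t := by
        rw [← mul_assoc, ← mul_assoc, ← h4, mul_assoc s]
      have e2 : (s * p * st t) * M K = s * (p * (z0 - n0)) * st t := by
        rw [mul_assoc, h7, ← mul_assoc, mul_assoc s]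
      rw [e1, e2, ← sub_mul, ← mul_sub]
      congr 2
      rw [add_mul, mul_sub]
      abel
    rw [h8]
    refine (hNmem _).2 ⟨_, ?_, rfl⟩
    obtain ⟨a, n, hn, rfl⟩ := memV hE hp
    have e3 : z0 * (a • (1 : A) + n) - (a • (1 : A) + n) * z0 = z0 * n - n * z0 := by
      rw [mul_add, add_mul, mul_smul_comm, smul_mul_assoc, mul_one, one_mul]
      abel
    have e4 : n0 * (a • (1 : A) + n) + (a • (1 : A) + n) * n0 =
        (a • n0 + a • n0) + (n0 * n + n * n0) := by
      rw [mul_add, add_mul, mul_smul_comm, smul_mul_assoc, mul_one, one_mul]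
      abel
    rw [e3, e4]
    have f1 : z0 * n - n * z0 ∈ V := Submodule.mem_sup_right (lev_brk hE hde z0 n hz0 hn)
    have f2 : a • n0 + a • n0 ∈ V := Submodule.mem_sup_right
      (Submodule.add_mem _ (Submodule.smul_mem _ _ hn0) (Submodule.smul_mem _ _ hn0))
    have f3 : n0 * n + n * n0 ∈ V := by
      apply Submodule.mem_sup_left
      rw [hl0]
      exact lev_anti hE n0 n hn0 hn
    exact Submodule.add_mem _ f1 (Submodule.add_mem _ f2 f3)
  -- (2)
  have hsc : ∀ p ∈ V, ∀ p' ∈ V, p * st p' + p' * st p ∈ Submodule.span ℂ {(1 : A)} := by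
    intro p hp p' hp'
    obtain ⟨a, n, hn, rfl⟩ := memV hE hp
    obtain ⟨a', n', hn', rfl⟩ := memV hE hp'
    have e1 : st (a • (1 : A) + n) = a • (1 : A) - n := by
      rw [map_add, map_smul, st_one' hE, lev_st hE h3 n hn, sub_eq_add_neg]
    have e2 : st (a' • (1 : A) + n') = a' • (1 : A) - n' := by
      rw [map_add, map_smul, st_one' hE, lev_st hE h3 n' hn', sub_eq_add_neg]
    have e3 : (a • (1 : A) + n) * (a' • (1 : A) - n') + (a' • (1 : A) + n') * (a • (1 : A) - n) =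
        (2 * (a * a')) • (1 : A) - (n * n' + n' * n) := by
      simp only [mul_sub, add_mul, mul_smul_comm, smul_mul_assoc, mul_one, one_mul]
      module
    rw [e1, e2, e3]
    exact Submodule.sub_mem _ (Submodule.smul_mem _ _ (Submodule.mem_span_singleton_self _))
      (lev_anti hE n n' hn hn')
  have hNan : ∀ x ∈ N, ∀ y ∈ N, x * st y + y * st x ∈ Submodule.span ℂ {(1 : A)} := by
    intro x hx y hy
    obtain ⟨p, hp, rfl⟩ := (hNmem x).1 hx
    obtain ⟨p', hp', rfl⟩ := (hNmem y).1 hy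
    obtain ⟨c, hc⟩ := Submodule.mem_span_singleton.1 (hsc p hp p' hp')
    have key : ∀ q q' : A, (s * q * st t) * st (s * q' * st t) = s * (q * st q') * st s := by
      intro q q'
      rw [hE.st_mul, hE.st_mul, hE.st_st]
      calc s * q * st t * (t * (st q' * st s)) = s * q * (st t * t) * (st q' * st s) := by
            simp only [mul_assoc]
        _ = s * (q * st q') * st s := by
            rw [ht1, mul_one]
            simp only [mul_assoc]
    rw [key, key, ← add_mul, ← mul_add, ← hc, mul_smul_comm, smul_mul_assoc, mul_one, hs2]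
    exact Submodule.smul_mem _ _ (Submodule.mem_span_singleton_self _)
  -- (3)
  have key : ∀ K : Finset (Fin d), Even K.card → M K ∈ N → K.card = 0 ∨ K.card = d - 1 := by
    intro K hK hMK
    by_contra hcon
    rw [not_or] at hcon
    obtain ⟨hcon0, hcon⟩ := hcon
    have hKd : K.card ≤ d := by
      have := Finset.card_le_univ K
      rwa [Fintype.card_fin] at this
    have hK2 : 2 ≤ K.card := by
      obtain ⟨t, ht⟩ := hK
      omega
    have hKc : 2 ≤ Kᶜ.card := by
      rw [Finset.card_compl, Fintype.card_fin]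
      obtain ⟨t, ht⟩ := hK
      obtain ⟨t', ht'⟩ := hd
      omega
    obtain ⟨i₁, hi₁, i₂, hi₂, hi⟩ := Finset.one_lt_card.1 (show 1 < K.card by omega)
    obtain ⟨j₁, hj₁, j₂, hj₂, hj⟩ := Finset.one_lt_card.1 (show 1 < Kᶜ.card by omega)
    rw [Finset.mem_compl] at hj₁ hj₂
    have e1 : i₁ ≠ j₁ := fun h => hj₁ (h ▸ hi₁)
    have e2 : i₁ ≠ j₂ := fun h => hj₂ (h ▸ hi₁)
    have e3 : i₂ ≠ j₁ := fun h => hj₁ (h ▸ hi₂)
    have e4 : i₂ ≠ j₂ := fun h => hj₂ (h ▸ hi₂)
    have hM1 : M (K ∆ {i₁, j₁}) ∈ N := t_SWAP M st N hE hNst K i₁ j₁ hK hMK hi₁ hj₁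
    have hc1 : (K ∆ {i₁, j₁}).card = K.card := by
      have h1 := card_sd K {i₁, j₁}
      have h2 : K ∩ {i₁, j₁} = {i₁} := by
        ext x
        simp only [Finset.mem_inter, Finset.mem_insert, Finset.mem_singleton]
        constructor
        · rintro ⟨hx, rfl | rfl⟩
          · rfl
          · exact absurd hx hj₁
        · rintro rfl
          exact ⟨hi₁, Or.inl rfl⟩
      rw [h2, Finset.card_singleton, Finset.card_pair e1] at h1
      omega
    have hi₂' : i₂ ∈ K ∆ {i₁, j₁} := by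
      rw [Finset.mem_symmDiff]
      exact Or.inl ⟨hi₂, by simp [hi.symm, e3]⟩
    have hj₂' : j₂ ∉ K ∆ {i₁, j₁} := by
      rw [Finset.mem_symmDiff]
      simp [hj₂, e2.symm, hj.symm]
    have hM2 : M ((K ∆ {i₁, j₁}) ∆ {i₂, j₂}) ∈ N :=
      t_SWAP M st N hE hNst _ i₂ j₂ (by rw [hc1]; exact hK) hM1 hi₂' hj₂'
    have hKD : K ∆ ((K ∆ {i₁, j₁}) ∆ {i₂, j₂}) = {i₁, j₁} ∆ {i₂, j₂} := by
      rw [symmDiff_assoc, symmDiff_symmDiff_cancel_left]
    have hc2 : ((K ∆ {i₁, j₁}) ∆ {i₂, j₂}).card = K.card := by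
      have h1 := card_sd (K ∆ {i₁, j₁}) {i₂, j₂}
      have h2 : (K ∆ {i₁, j₁}) ∩ {i₂, j₂} = {i₂} := by
        ext x
        simp only [Finset.mem_inter, Finset.mem_insert, Finset.mem_singleton]
        constructor
        · rintro ⟨hx, rfl | rfl⟩
          · rfl
          · exact absurd hx hj₂'
        · rintro rfl
          exact ⟨hi₂', Or.inl rfl⟩
      rw [h2, Finset.card_singleton, Finset.card_pair e4] at h1
      omega
    have hD : (({i₁, j₁} : Finset (Fin d)) ∆ {i₂, j₂}).card = 4 := by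
      have h1 := card_sd ({i₁, j₁} : Finset (Fin d)) {i₂, j₂}
      have h2 : ({i₁, j₁} : Finset (Fin d)) ∩ {i₂, j₂} = ∅ := by
        ext x
        simp only [Finset.mem_inter, Finset.mem_insert, Finset.mem_singleton,
          Finset.notMem_empty, iff_false, not_and, not_or]
        rintro (rfl | rfl)
        · exact ⟨hi, e2⟩
        · exact ⟨e3.symm, hj⟩
      rw [h2, Finset.card_empty, Finset.card_pair e1, Finset.card_pair e4] at h1
      omega
    have hpar : Even (K ∩ ((K ∆ {i₁, j₁}) ∆ {i₂, j₂})).card := by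
      have h1 := card_sd K ((K ∆ {i₁, j₁}) ∆ {i₂, j₂})
      rw [hKD, hD, hc2] at h1
      obtain ⟨t, ht⟩ := hK
      exact ⟨t - 1, by omega⟩
    have hK2e : Even ((K ∆ {i₁, j₁}) ∆ {i₂, j₂}).card := by rw [hc2]; exact hK
    have h1 := hNan _ hMK _ hM2
    rw [hE.st_M K hK, hE.st_M _ hK2e, hc2] at h1
    have hcm := hE.comm K _ hK hK2e
    rw [hpar.neg_one_pow, one_smul] at hcm
    obtain ⟨ε, hε, h3⟩ := hE.mul K _ hK hK2e
    rw [mul_smul_comm, mul_smul_comm, ← hcm, h3, ← smul_add, ← add_smul, hKD, smul_smul] at h1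
    have h5 : ((-1 : ℂ) ^ (K.card / 2) * (ε + ε)) ≠ 0 := by
      apply mul_ne_zero (pow_ne_zero _ (by norm_num))
      rcases hε with rfl | rfl <;> norm_num
    have h6 := Submodule.smul_mem _ ((-1 : ℂ) ^ (K.card / 2) * (ε + ε))⁻¹ h1
    rw [smul_smul, inv_mul_cancel₀ h5, one_smul] at h6
    exact M_nsc hE (by rw [hD]; exact ⟨2, rfl⟩) (Finset.card_pos.1 (by omega)) h6
  have h1 : s * e * st t ∈ N := (hNmem _).2 ⟨e, he, rfl⟩
  have h2 := Pool.Agent.K1H42.SD.t_SPAN M st N hE hNst _ h1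
  have h4 : Submodule.span ℂ {x | ∃ K : Finset (Fin d), Even K.card ∧ M K ∈ N ∧ x = M K} ≤ V := by
    rw [Submodule.span_le]
    rintro _ ⟨K, hK, hMK, rfl⟩
    rcases key K hK hMK with h | h
    · exact Submodule.mem_sup_left (Submodule.subset_span ⟨K, h, rfl⟩)
    · exact Submodule.mem_sup_right (Submodule.subset_span ⟨K, h, rfl⟩)
  exact h4 h2

end Pool.Agent.K1H78.SD
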